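import Pool.Agent.T9h39.PZ.Spec

/-!
# PZ, piece (M): the number of balanced functions

Author: helper67.
-/

set_option autoImplicit false

namespace Pool.Agent.T9h67.PZ

open Finset Nat
open Pool.Agent.T9h39.PZ

theorem fac_up (n d : ℕ) : (n + d)! ≤ n ! * (n + d) ^ d := by
  induction d with
  | zero => simp
  | succ d ih =>
    have h1 : (n + (d + 1))! = (n + d + 1) * (n + d)! := Nat.factorial_succ (n + d)
    have h2 : (n + (d + 1)) ^ (d + 1) = (n + d + 1) ^ d * (n + d + 1) := pow_succ _ _
    rw [h1, h2]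
    calc (n + d + 1) * (n + d)! ≤ (n + d + 1) * (n ! * (n + d) ^ d) :=
          Nat.mul_le_mul_left _ ih
      _ ≤ (n + d + 1) * (n ! * (n + d + 1) ^ d) :=
          Nat.mul_le_mul_left _ (Nat.mul_le_mul_left _ (Nat.pow_le_pow_left (by omega) _))
      _ = n ! * ((n + d + 1) ^ d * (n + d + 1)) := by ring

theorem fac (n m : ℕ) : m ! * m ^ n ≤ n ! * m ^ m := by
  rcases le_total m n with h | h
  · have h1 := Nat.factorial_mul_pow_sub_le_factorial h
    calc m ! * m ^ n = m ! * m ^ (n - m) * m ^ m := by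
          rw [mul_assoc, ← pow_add, Nat.sub_add_cancel h]
      _ ≤ n ! * m ^ m := Nat.mul_le_mul_right _ h1
  · obtain ⟨d, rfl⟩ := Nat.exists_eq_add_of_le h
    calc (n + d)! * (n + d) ^ n ≤ n ! * (n + d) ^ d * (n + d) ^ n :=
          Nat.mul_le_mul_right _ (fac_up n d)
      _ = n ! * (n + d) ^ (n + d) := by rw [mul_assoc, ← pow_add, Nat.add_comm d n]

theorem fac_prod {j m : ℕ} (hm : 1 ≤ m) (n : Fin j → ℕ) (hn : ∑ i, n i = j * m) :
    (m !) ^ j ≤ ∏ i, (n i)! := by
  have h1 : ∏ i : Fin j, (m ! * m ^ n i) ≤ ∏ i : Fin j, ((n i)! * m ^ m) :=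
    Finset.prod_le_prod' fun i _ => fac (n i) m
  rw [Finset.prod_mul_distrib, Finset.prod_mul_distrib, Finset.prod_pow_eq_pow_sum, hn] at h1
  simp only [Finset.prod_const, Finset.card_univ, Fintype.card_fin] at h1
  rw [← pow_mul, mul_comm m j] at h1
  exact Nat.le_of_mul_le_mul_right h1 (pow_pos (by omega) _)

/-- the balanced type is the largest -/
theorem all_le (j m : ℕ) (hm : 1 ≤ m) : j ^ (j * m) * (m !) ^ j ≤ (j * m + 1) ^ j * (j * m)! := by
  have h1 := sum_pow_eq_sum_piAntidiag (Finset.univ : Finset (Fin j)) (fun _ => (1 : ℕ)) (j * m)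
  simp only [Finset.sum_const, Finset.card_univ, Fintype.card_fin, smul_eq_mul, mul_one, one_pow,
    Finset.prod_const_one, Nat.cast_id] at h1
  rw [h1, Finset.sum_mul]
  have h2 : ∀ n ∈ piAntidiag (Finset.univ : Finset (Fin j)) (j * m),
      multinomial Finset.univ n * (m !) ^ j ≤ (j * m)! := by
    intro n hn
    have hs : ∑ i, n i = j * m := (mem_piAntidiag.mp hn).1
    have h3 := multinomial_spec (Finset.univ : Finset (Fin j)) n
    rw [hs] at h3
    rw [← h3, mul_comm]
    exact Nat.mul_le_mul_right _ (fac_prod hm n hs)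
  refine (Finset.sum_le_sum h2).trans ?_
  rw [Finset.sum_const, smul_eq_mul]
  refine Nat.mul_le_mul_right _ ?_
  have h4 : piAntidiag (Finset.univ : Finset (Fin j)) (j * m) ⊆
      Fintype.piFinset fun _ : Fin j => Finset.range (j * m + 1) := by
    intro n hn
    have hs : ∑ i, n i = j * m := (mem_piAntidiag.mp hn).1
    rw [Fintype.mem_piFinset]
    intro i
    rw [Finset.mem_range]
    have := Finset.single_le_sum (f := n) (fun i _ => Nat.zero_le _) (Finset.mem_univ i)
    omega
  refine (Finset.card_le_card h4).trans ?_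
  rw [Fintype.card_piFinset]
  simp

/-- the number of balanced functions from below -/
theorem nBal_ge (k m : ℕ) : (k * m)! ≤ nBal k m * (m !) ^ k := by
  classical
  set f : Fin (k * m) → Fin k := fun x => (finProdFinEquiv.symm x).1 with hf
  have hfib : ∀ i, Fintype.card {x // f x = i} = m := by
    intro i
    have e : {x : Fin (k * m) // f x = i} ≃ Fin m :=
      (finProdFinEquiv.symm.subtypeEquiv (p := fun x => f x = i)
        (q := fun p : Fin k × Fin m => p.1 = i) (fun x => Iff.rfl)).trans
        { toFun := fun p => p.1.2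
          invFun := fun a => ⟨(i, a), rfl⟩
          left_inv := by rintro ⟨⟨a, b⟩, rfl⟩; rfl
          right_inv := fun a => rfl }
    rw [Fintype.card_congr e, Fintype.card_fin]
  have hbal : ∀ g : Equiv.Perm (Fin (k * m)), Bal m (f ∘ g) := by
    intro g i
    refine Eq.trans ?_ (hfib i)
    rw [Fintype.card_subtype]
    refine Finset.card_bij (fun x _ => g x) ?_ ?_ ?_
    · intro x hx
      simpa using hx
    · intro x _ y _ h
      exact g.injective h
    · intro y hy
      refine ⟨g.symm y, ?_, by simp⟩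
      simpa using hy
  have h1 : (Finset.univ : Finset (Equiv.Perm (Fin (k * m)))).card ≤ (m !) ^ k *
      (univ.filter fun σ : Fin (k * m) → Fin k => Bal m σ).card := by
    refine card_le_mul_card_image_of_maps_to (f := fun g : Equiv.Perm (Fin (k * m)) => f ∘ g)
      (fun g _ => ?_) _ (fun σ _ => ?_)
    · rw [Finset.mem_filter]
      exact ⟨Finset.mem_univ _, hbal g⟩
    · rcases (univ.filter fun g : Equiv.Perm (Fin (k * m)) => f ∘ g = σ).eq_empty_or_nonempty
        with h | ⟨g0, hg0⟩
      · rw [h]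
        exact Nat.zero_le _
      · rw [Finset.mem_filter] at hg0
        have h2 := DomMulAct.stabilizer_card (f := f)
        simp only [hfib, Finset.prod_const, Finset.card_univ, Fintype.card_fin] at h2
        rw [← h2, Fintype.card_subtype]
        refine Finset.card_le_card_of_injOn (fun g => g * g0⁻¹) ?_ ?_
        · intro g hg
          have hg' : f ∘ g = σ := by simpa using hg
          have : f ∘ ⇑(g * g0⁻¹) = f := by
            funext x
            have h3 : f (g (g0⁻¹ x)) = f (g0 (g0⁻¹ x)) := by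
              have := congrFun (hg'.trans hg0.2.symm) (g0⁻¹ x)
              simpa using this
            simpa using h3
          simpa using this
        · intro g _ g' _ h
          exact mul_right_cancel h
  rw [Finset.card_univ, Fintype.card_perm, Fintype.card_fin] at h1
  exact h1.trans_eq (mul_comm _ _)

theorem mult : S_Mult := by
  intro k m hk hm
  have h1 := all_le (k - 1) m hm
  have h2 := nBal_ge k m
  have hle : m ≤ k * m := Nat.le_mul_of_pos_left m (by omega)
  have h3 := Nat.choose_mul_factorial_mul_factorial hle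
  have h4 : k * m - m = (k - 1) * m := by
    rw [Nat.sub_mul, one_mul]
  rw [h4] at h3
  obtain ⟨j, rfl⟩ : ∃ j, k = j + 1 := ⟨k - 1, by omega⟩
  simp only [Nat.add_sub_cancel] at h1 h3 h4 ⊢
  have hF : 0 < (j * m)! := Nat.factorial_pos _
  have hM : 0 < (m !) ^ (j + 1) := pow_pos (Nat.factorial_pos _) _
  refine Nat.le_of_mul_le_mul_right (c := (j * m)! * (m !) ^ (j + 1)) ?_ (Nat.mul_pos hF hM)
  have h5 : (j * m + 1) ^ j ≤ ((j + 1) * m + 1) ^ (j + 1) := by
    calc (j * m + 1) ^ j ≤ ((j + 1) * m + 1) ^ j :=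
          Nat.pow_le_pow_left (by nlinarith) _
      _ ≤ ((j + 1) * m + 1) ^ (j + 1) := Nat.pow_le_pow_right (by omega) (by omega)
  calc j ^ (j * m) * ((j + 1) * m).choose m * ((j * m)! * m ! ^ (j + 1))
      = (j ^ (j * m) * m ! ^ j) * (((j + 1) * m).choose m * m ! * (j * m)!) := by
        rw [pow_succ]; ring
    _ ≤ ((j * m + 1) ^ j * (j * m)!) * ((j + 1) * m)! := by
        rw [h3]
        exact Nat.mul_le_mul_right _ h1
    _ ≤ (((j + 1) * m + 1) ^ (j + 1) * (j * m)!) * (nBal (j + 1) m * (m !) ^ (j + 1)) :=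
        Nat.mul_le_mul (Nat.mul_le_mul_right _ h5) h2
    _ = nBal (j + 1) m * ((j + 1) * m + 1) ^ (j + 1) * ((j * m)! * m ! ^ (j + 1)) := by ring

end Pool.Agent.T9h67.PZ
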