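import Pool.Agent.T9h39.PZ.Spec

/-!
# PZ, piece (P): the group and the buckets

Author: helper67.
-/

set_option autoImplicit false

namespace Pool.Agent.T9h67.PZ

open Finset
open Pool.Agent.T9h39.PZ

theorem digits_lt (B : ℕ) : ∀ (j : ℕ) (m : Fin j → ℕ), (∀ s, m s < B) →
    ∑ s, m s * B ^ (s : ℕ) < B ^ j := by
  intro j
  induction j with
  | zero => intro m _; simp
  | succ j ih =>
    intro m hm
    rw [Fin.sum_univ_castSucc]
    have h1 := ih (fun s => m s.castSucc) fun s => hm _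
    have h2 := hm (Fin.last j)
    simp only [Fin.val_castSucc, Fin.val_last] at h1 ⊢
    have h3 : (m (Fin.last j) + 1) * B ^ j ≤ B * B ^ j := Nat.mul_le_mul_right _ h2
    rw [pow_succ, mul_comm (B ^ j) B]
    linarith

theorem digits_inj (B : ℕ) : ∀ (j : ℕ) (m m' : Fin j → ℕ), (∀ s, m s < B) → (∀ s, m' s < B) →
    ∑ s, m s * B ^ (s : ℕ) = ∑ s, m' s * B ^ (s : ℕ) → m = m' := by
  intro j
  induction j with
  | zero => intro m m' _ _ _; funext s; exact s.elim0
  | succ j ih =>
    intro m m' hm hm' h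
    rw [Fin.sum_univ_castSucc, Fin.sum_univ_castSucc] at h
    have h1 := digits_lt B j (fun s => m s.castSucc) fun s => hm _
    have h1' := digits_lt B j (fun s => m' s.castSucc) fun s => hm' _
    simp only [Fin.val_castSucc, Fin.val_last] at h1 h1' h
    have h2 : m (Fin.last j) = m' (Fin.last j) := by
      rcases lt_trichotomy (m (Fin.last j)) (m' (Fin.last j)) with hlt | heq | hlt
      · have h3 : (m (Fin.last j) + 1) * B ^ j ≤ m' (Fin.last j) * B ^ j :=
          Nat.mul_le_mul_right _ hlt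
        rw [add_mul, one_mul] at h3
        omega
      · exact heq
      · have h3 : (m' (Fin.last j) + 1) * B ^ j ≤ m (Fin.last j) * B ^ j :=
          Nat.mul_le_mul_right _ hlt
        rw [add_mul, one_mul] at h3
        omega
    rw [h2] at h
    have h3 := ih (fun s => m s.castSucc) (fun s => m' s.castSucc) (fun s => hm _)
      (fun s => hm' _) (Nat.add_right_cancel h)
    funext s
    refine Fin.lastCases h2 (fun s => ?_) s
    exact congrFun h3 s

/-- the coefficients: `1` for the first roles, `- (k - 1)` for the last one -/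
def ep (j : ℕ) (s : Fin (j + 1)) : ℤ := 1 - (if s = Fin.last j then ((j : ℤ) + 1) else 0)

theorem ep_sum (j : ℕ) : ∑ s, ep j s = 0 := by
  unfold ep
  rw [Finset.sum_sub_distrib, Finset.sum_ite_eq']
  simp

theorem ep_comb (j : ℕ) (r : Fin (j + 1) → Fin (j + 1)) (a0 : Fin (j + 1))
    (h : ∀ a, r a = Fin.last j ↔ a = a0) (x : Fin (j + 1) → ℤ) :
    ∑ a, ep j (r a) * x a = ∑ a, x a - ((j : ℤ) + 1) * x a0 := by
  unfold ep
  simp only [h, sub_mul, one_mul, Finset.sum_sub_distrib, ite_mul, zero_mul,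
    Finset.sum_ite_eq', Finset.mem_univ, if_true]

/-- a small integer which is zero modulo `N` -/
theorem zero_of_small {j : ℕ} {D : ℤ} {N : ℕ} (hN : ((j : ℤ) + 1) * D < N)
    (x : Fin (j + 1) → ℤ) (a0 : Fin (j + 1)) (h0 : ∀ a, 0 ≤ x a) (h1 : ∀ a, x a ≤ D)
    (h : ((∑ a, x a - ((j : ℤ) + 1) * x a0 : ℤ) : ZMod N) = 0) :
    ∑ a, x a = ((j : ℤ) + 1) * x a0 := by
  rw [ZMod.intCast_zmod_eq_zero_iff_dvd] at h
  have h2 : ∑ a, x a ≤ ((j : ℤ) + 1) * D := by
    refine (Finset.sum_le_sum fun a _ => h1 a).trans ?_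
    simp
  have h3 : 0 ≤ ∑ a, x a := Finset.sum_nonneg fun a _ => h0 a
  have h4 : ((j : ℤ) + 1) * x a0 ≤ ((j : ℤ) + 1) * D :=
    mul_le_mul_of_nonneg_left (h1 a0) (by positivity)
  have h5 : 0 ≤ ((j : ℤ) + 1) * x a0 := mul_nonneg (by positivity) (h0 a0)
  have h6 := Int.eq_zero_of_abs_lt_dvd h (by rw [abs_lt]; constructor <;> linarith)
  linarith

/-- the conclusion from the equations -/
theorem all_eq {j n : ℕ} (X : Fin (j + 1) → Fin n → ℤ) (a0 : Fin (j + 1))
    (h1 : ∀ i, ∑ a, X a i = ((j : ℤ) + 1) * X a0 i)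
    (h2 : ∑ a, ∑ i, X a i ^ 2 = ((j : ℤ) + 1) * ∑ i, X a0 i ^ 2) :
    ∀ a i, X a i = X a0 i := by
  have h3 : ∑ a, ∑ i, (X a i - X a0 i) ^ 2 = 0 := by
    have e : ∀ a i, (X a i - X a0 i) ^ 2 = X a i ^ 2 - 2 * (X a0 i * X a i) + X a0 i ^ 2 := by
      intro a i; ring
    simp only [e, Finset.sum_add_distrib, Finset.sum_sub_distrib]
    rw [h2]
    have e2 : ∑ a, ∑ i, 2 * (X a0 i * X a i) = 2 * (((j : ℤ) + 1) * ∑ i, X a0 i ^ 2) := by
      rw [Finset.sum_comm]
      rw [Finset.mul_sum, Finset.mul_sum]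
      refine Finset.sum_congr rfl fun i _ => ?_
      rw [← Finset.mul_sum, ← Finset.mul_sum, h1 i]
      ring
    rw [e2]
    simp only [Finset.sum_const, Finset.card_univ, Fintype.card_fin, nsmul_eq_mul]
    push_cast
    ring
  intro a i
  have h4 := (Finset.sum_eq_zero_iff_of_nonneg fun a _ =>
    Finset.sum_nonneg fun i _ => sq_nonneg (X a i - X a0 i)).mp h3 a (Finset.mem_univ a)
  have h5 := (Finset.sum_eq_zero_iff_of_nonneg fun i _ => sq_nonneg (X a i - X a0 i)).mp h4 i
    (Finset.mem_univ i)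
  have h6 := pow_eq_zero_iff (n := 2) (by norm_num) |>.mp h5
  linarith

theorem setP : S_Set := by
  intro k n d hk hn hd
  obtain ⟨j, rfl⟩ : ∃ j, k = j + 1 := ⟨k - 1, by omega⟩
  have : NeZero ((j + 1) * d) := ⟨by positivity⟩
  have : NeZero ((j + 1) * n * d ^ 2) := ⟨by positivity⟩
  have : NeZero ((j + 1 + 1) ^ (j + 1)) := ⟨by positivity⟩
  have hpw : ∀ s : Fin (j + 1), (j + 1 + 1) ^ (s : ℕ) < (j + 1 + 1) ^ (j + 1) := fun s =>
    Nat.pow_lt_pow_right (by omega) s.2
  refine ⟨(Fin n → ZMod ((j + 1) * d)) × ZMod ((j + 1) * n * d ^ 2) ×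
    ZMod ((j + 1 + 1) ^ (j + 1)), inferInstance, inferInstance,
    fun s b => (fun i => ((ep j s * (((b i : Fin d) : ℕ) : ℤ) : ℤ) : ZMod ((j + 1) * d)),
      ((ep j s * ∑ i, (((b i : Fin d) : ℕ) : ℤ) ^ 2 : ℤ) : ZMod ((j + 1) * n * d ^ 2)),
      (((j + 1 + 1) ^ (s : ℕ) : ℕ) : ZMod ((j + 1 + 1) ^ (j + 1)))),
    (0, 0, ((∑ s : Fin (j + 1), (j + 1 + 1) ^ (s : ℕ) : ℕ) : ZMod ((j + 1 + 1) ^ (j + 1)))),
    ?_, ?_, ?_, ?_⟩
  · rw [Fintype.card_prod, Fintype.card_prod, Fintype.card_fun, ZMod.card, ZMod.card, ZMod.card,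
      Fintype.card_fin]
    ring
  · intro b s s' h
    have h1 := congrArg (fun p => p.2.2) h
    simp only at h1
    rw [ZMod.natCast_eq_natCast_iff', Nat.mod_eq_of_lt (hpw s), Nat.mod_eq_of_lt (hpw s')] at h1
    exact Fin.ext (Nat.pow_right_injective (by omega) h1)
  · intro b
    refine Prod.ext ?_ (Prod.ext ?_ ?_)
    · rw [Prod.fst_sum]
      funext i
      rw [Finset.sum_apply]
      simp only
      rw [← Int.cast_sum, ← Finset.sum_mul, ep_sum]
      simp
    · rw [Prod.snd_sum, Prod.fst_sum]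
      simp only
      rw [← Int.cast_sum, ← Finset.sum_mul, ep_sum]
      simp
    · rw [Prod.snd_sum, Prod.snd_sum]
      simp only
      rw [Nat.cast_sum]
  · intro r b h
    -- the third coordinate
    have h3 : ∑ a, (j + 1 + 1) ^ ((r a : Fin (j + 1)) : ℕ) =
        ∑ s : Fin (j + 1), (univ.filter fun a => r a = s).card * (j + 1 + 1) ^ (s : ℕ) := by
      rw [← Finset.sum_fiberwise univ r]
      refine Finset.sum_congr rfl fun s _ => ?_
      rw [Finset.sum_congr rfl (g := fun _ => (j + 1 + 1) ^ (s : ℕ)) fun a ha => by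
        rw [(Finset.mem_filter.mp ha).2]]
      rw [Finset.sum_const, smul_eq_mul]
    have hc : ∀ s : Fin (j + 1), (univ.filter fun a => r a = s).card < j + 1 + 1 := by
      intro s
      have := Finset.card_filter_le (univ : Finset (Fin (j + 1))) (fun a => r a = s)
      rw [Finset.card_univ, Fintype.card_fin] at this
      omega
    have h4 : ∑ s : Fin (j + 1), (univ.filter fun a => r a = s).card * (j + 1 + 1) ^ (s : ℕ) =
        ∑ s : Fin (j + 1), 1 * (j + 1 + 1) ^ (s : ℕ) := by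
      have h5 := congrArg (fun p => p.2.2) h
      rw [Prod.snd_sum, Prod.snd_sum] at h5
      simp only at h5
      rw [← Nat.cast_sum, ZMod.natCast_eq_natCast_iff', h3, Nat.mod_eq_of_lt (digits_lt _ _ _ hc)]
        at h5
      rw [h5]
      simp only [one_mul]
      refine Nat.mod_eq_of_lt ?_
      have := digits_lt (j + 1 + 1) (j + 1) (fun _ => 1) (fun _ => by omega)
      simpa using this
    have h5 := digits_inj _ _ _ _ hc (fun _ => by omega) h4
    have hsurj : Function.Surjective r := by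
      intro s
      have h6 := congrFun h5 s
      have h7 : 0 < (univ.filter fun a => r a = s).card := by
        rw [h6]; exact one_pos
      obtain ⟨a, ha⟩ := Finset.card_pos.mp h7
      exact ⟨a, (Finset.mem_filter.mp ha).2⟩
    have hinj : Function.Injective r := Finite.injective_iff_surjective.mpr hsurj
    refine ⟨hinj, ?_⟩
    obtain ⟨a0, ha0⟩ := hsurj (Fin.last j)
    have hr : ∀ a, r a = Fin.last j ↔ a = a0 := by
      intro a
      constructor
      · intro h; exact hinj (h.trans ha0.symm)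
      · rintro rfl; exact ha0
    have hb0 : ∀ a i, (0:ℤ) ≤ (((b a i : Fin d) : ℕ) : ℤ) := fun a i => Int.natCast_nonneg _
    have hb1 : ∀ a i, (((b a i : Fin d) : ℕ) : ℤ) ≤ (d : ℤ) - 1 := by
      intro a i
      have := (b a i).2
      omega
    have hj : (0:ℤ) < (j : ℤ) + 1 := by positivity
    -- the first coordinate
    have e1 : ∀ i, ∑ a, (((b a i : Fin d) : ℕ) : ℤ) =
        ((j : ℤ) + 1) * (((b a0 i : Fin d) : ℕ) : ℤ) := by
      intro i
      have h6 := congrArg (fun p => p.1 i) h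
      simp only [Prod.fst_sum, Finset.sum_apply] at h6
      rw [← Int.cast_sum, ep_comb j r a0 hr] at h6
      refine zero_of_small (D := (d : ℤ) - 1) ?_ _ a0 (fun a => hb0 a i) (fun a => hb1 a i) h6
      push_cast
      nlinarith
    -- the second coordinate
    have e2 : ∑ a, ∑ i, (((b a i : Fin d) : ℕ) : ℤ) ^ 2 =
        ((j : ℤ) + 1) * ∑ i, (((b a0 i : Fin d) : ℕ) : ℤ) ^ 2 := by
      have h6 := congrArg (fun p => p.2.1) h
      simp only [Prod.snd_sum, Prod.fst_sum] at h6
      rw [← Int.cast_sum, ep_comb j r a0 hr] at h6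
      refine zero_of_small (D := (n : ℤ) * ((d : ℤ) - 1) ^ 2) ?_ _ a0
        (fun a => Finset.sum_nonneg fun i _ => sq_nonneg _) (fun a => ?_) h6
      · push_cast
        have hn' : (1:ℤ) ≤ n := by exact_mod_cast hn
        have hd' : (1:ℤ) ≤ d := by exact_mod_cast hd
        have h7 : ((d : ℤ) - 1) ^ 2 < (d : ℤ) ^ 2 := by nlinarith
        have h8 : (n : ℤ) * ((d : ℤ) - 1) ^ 2 < (n : ℤ) * (d : ℤ) ^ 2 :=
          mul_lt_mul_of_pos_left h7 (by linarith)
        have h9 := mul_lt_mul_of_pos_left h8 hj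
        linarith
      · refine (Finset.sum_le_sum fun i _ => pow_le_pow_left₀ (hb0 a i) (hb1 a i) 2).trans ?_
        simp
    have h7 := all_eq (fun a i => (((b a i : Fin d) : ℕ) : ℤ)) a0 e1 e2
    have h8 : ∀ a, b a = b a0 := by
      intro a
      funext i
      have := h7 a i
      exact Fin.ext (by exact_mod_cast this)
    intro a a'
    rw [h8 a, h8 a']

end Pool.Agent.T9h67.PZ
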